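import Pool.Agent.H14.Tb4
set_option autoImplicit false

open Finset Polynomial

theorem Pool.Agent.Results.MP_fe439f_co.RealRooted.result
    (A B : ℕ → ℝ[X]) (hA0 : A 0 = 1) (hA1 : A 1 = 1)
    (hA : ∀ n, 2 ≤ n → A n = A (n - 1) +
      X * ∑ k ∈ Ico 1 (n - 1), ((n - 1).choose (k - 1) : ℝ[X]) * A (n - k) * A k)
    (hB0 : B 0 = 1)
    (hB : ∀ n, B (n + 1) = B n + X * ∑ i ∈ range n, (n.choose i : ℝ[X]) * B (n - i) * B i
      + X * ∑ m ∈ Ico 1 n, (n.choose (m - 1) : ℝ[X]) * 2 ^ (n + 1 - m) * A (n + 1 - m) * B m)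
    (n : ℕ) (hn : 1 ≤ n) (z : ℂ) (hz : aeval z (B n) = 0) : z.im = 0 :=
  Pool.Agent.H14.Tb.real_rooted A B hA0 hA1 hA hB0 hB n hn z hz
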